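import Mathlib

/-!
# Balanced orientations
-/

set_option autoImplicit false

namespace Pool.Agent.H9.TD

open Finset Classical

theorem signs {ι V : Type} (E : Finset ι) (a b : ι → V) :
    ∃ σ : ι → ℤ, (∀ e, σ e = 1 ∨ σ e = -1) ∧
      ∀ v, |∑ e ∈ E, σ e * ((if a e = v then 1 else 0) - (if b e = v then 1 else 0))| ≤ 1 := by
  induction hn : E.card using Nat.strong_induction_on generalizing E a b with
  | _ n ih =>
    by_cases h : ∃ e ∈ E, ∃ f ∈ E, e ≠ f ∧ ∃ v x y, ((a e = x ∧ b e = v) ∨ (a e = v ∧ b e = x)) ∧
      ((a f = v ∧ b f = y) ∨ (a f = y ∧ b f = v))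
    · obtain ⟨e, he, f, hf, hef, v, x, y, h1, h2⟩ := h
      obtain ⟨σ', hσ1, hσ2⟩ := ih (E.erase f).card (by
        rw [card_erase_of_mem hf]
        have := card_pos.2 ⟨f, hf⟩
        omega) (E.erase f) (Function.update a e x) (Function.update b e y) rfl
      obtain ⟨s, hs, hs'⟩ : ∃ s : ℤ, (s = 1 ∨ s = -1) ∧ ∀ u, s * ((if a e = u then 1 else 0) -
          (if b e = u then 1 else 0)) = (if x = u then 1 else 0) - (if v = u then 1 else 0) := by
        rcases h1 with ⟨h1, h1'⟩ | ⟨h1, h1'⟩
        · exact ⟨1, Or.inl rfl, fun u => by rw [h1, h1']; ring⟩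
        · exact ⟨-1, Or.inr rfl, fun u => by rw [h1, h1']; ring⟩
      obtain ⟨t, ht, ht'⟩ : ∃ t : ℤ, (t = 1 ∨ t = -1) ∧ ∀ u, t * ((if a f = u then 1 else 0) -
          (if b f = u then 1 else 0)) = (if v = u then 1 else 0) - (if y = u then 1 else 0) := by
        rcases h2 with ⟨h1, h1'⟩ | ⟨h1, h1'⟩
        · exact ⟨1, Or.inl rfl, fun u => by rw [h1, h1']; ring⟩
        · exact ⟨-1, Or.inr rfl, fun u => by rw [h1, h1']; ring⟩
      refine ⟨fun i => if i = e then s * σ' e else if i = f then t * σ' e else σ' i, ?_, ?_⟩
      · intro i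
        have h3 := hσ1 e
        have h4 := hσ1 i
        dsimp only
        split_ifs
        · rcases hs with hs | hs <;> rcases h3 with h3 | h3 <;> simp [hs, h3]
        · rcases ht with hs | hs <;> rcases h3 with h3 | h3 <;> simp [hs, h3]
        · exact h4
      · intro u
        have hee : e ∈ E.erase f := mem_erase.2 ⟨hef, he⟩
        have h3 := hσ2 u
        rw [← Finset.add_sum_erase (E.erase f) _ hee] at h3
        rw [← Finset.add_sum_erase E _ hf, ← Finset.add_sum_erase (E.erase f) _ hee]
        have hrest : ∑ i ∈ (E.erase f).erase e, (if i = e then s * σ' e else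
            if i = f then t * σ' e else σ' i) * ((if a i = u then 1 else 0) -
              (if b i = u then 1 else 0)) =
            ∑ i ∈ (E.erase f).erase e, σ' i * ((if Function.update a e x i = u then 1 else 0) -
              (if Function.update b e y i = u then 1 else 0)) := by
          refine Finset.sum_congr rfl fun i hi => ?_
          have hie : i ≠ e := (mem_erase.1 hi).1
          have hif : i ≠ f := (mem_erase.1 (mem_erase.1 hi).2).1
          rw [if_neg hie, if_neg hif, Function.update_of_ne hie, Function.update_of_ne hie]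
        have hmain : (if f = e then s * σ' e else if f = f then t * σ' e else σ' f) *
            ((if a f = u then 1 else 0) - (if b f = u then 1 else 0)) +
            ((if e = e then s * σ' e else if e = f then t * σ' e else σ' e) *
            ((if a e = u then 1 else 0) - (if b e = u then 1 else 0))) =
            σ' e * ((if Function.update a e x e = u then 1 else 0) -
              (if Function.update b e y e = u then 1 else 0)) := by
          rw [if_neg (Ne.symm hef), if_pos rfl, if_pos rfl, Function.update_self,
            Function.update_self]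
          linear_combination σ' e * ht' u + σ' e * hs' u
        rw [hrest, ← add_assoc, hmain]
        exact h3
    · refine ⟨fun _ => 1, fun _ => Or.inl rfl, fun v => ?_⟩
      by_cases h' : ∃ e ∈ E, a e = v ∨ b e = v
      · obtain ⟨e, he, hv⟩ := h'
        rw [Finset.sum_eq_single e]
        · split_ifs <;> simp
        · intro f hf hfe
          have h1 : a f ≠ v := by
            intro hfv
            apply h
            rcases hv with hv | hv
            · exact ⟨e, he, f, hf, Ne.symm hfe, v, b e, b f, Or.inr ⟨hv, rfl⟩, Or.inl ⟨hfv, rfl⟩⟩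
            · exact ⟨e, he, f, hf, Ne.symm hfe, v, a e, b f, Or.inl ⟨rfl, hv⟩, Or.inl ⟨hfv, rfl⟩⟩
          have h2 : b f ≠ v := by
            intro hfv
            apply h
            rcases hv with hv | hv
            · exact ⟨e, he, f, hf, Ne.symm hfe, v, b e, a f, Or.inr ⟨hv, rfl⟩, Or.inr ⟨rfl, hfv⟩⟩
            · exact ⟨e, he, f, hf, Ne.symm hfe, v, a e, a f, Or.inl ⟨rfl, hv⟩, Or.inr ⟨rfl, hfv⟩⟩
          rw [if_neg h1, if_neg h2]
          simp
        · intro h
          exact absurd he h
      · push Not at h'
        rw [Finset.sum_eq_zero]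
        · simp
        · intro e he
          rw [if_neg (h' e he).1, if_neg (h' e he).2]
          simp

end Pool.Agent.H9.TD
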