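import Pool.Agent.H13.TD.Base
import Pool.Agent.L0.MaxCut
import Pool.Agent.H9.TD.Signs

/-!
# The bipartite case
-/

set_option autoImplicit false

namespace Pool.Agent.H9.TD

open Finset Classical H13.TD

/-- a sum of signs of absolute value at most one has both signs -/
lemma both {ι : Type} (S : Finset ι) (σ : ι → ℤ) (h1 : ∀ e, σ e = 1 ∨ σ e = -1)
    (h2 : |∑ e ∈ S, σ e| ≤ 1) (h3 : 2 ≤ S.card) :
    (∃ e ∈ S, σ e = 1) ∧ ∃ e ∈ S, σ e = -1 := by
  rw [abs_le] at h2
  constructor
  · by_contra h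
    push Not at h
    have : ∑ e ∈ S, σ e = ∑ e ∈ S, (-1 : ℤ) :=
      Finset.sum_congr rfl fun e he => (h1 e).resolve_left (h e he)
    rw [this] at h2
    simp at h2
    omega
  · by_contra h
    push Not at h
    have : ∑ e ∈ S, σ e = ∑ e ∈ S, (1 : ℤ) :=
      Finset.sum_congr rfl fun e he => (h1 e).resolve_right (h e he)
    rw [this] at h2
    simp at h2
    omega

variable {V : Type} [Fintype V]

/-- the number estimate -/
lemma bd_num (d h i : ℕ) (hh : 1 ≤ h) (hi : 2 * h * i ≤ d * (h - 1)) :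
    Bd (2 * i + 4 * 0) (h + d) := by
  have hr : (2 : ℝ) * h * i ≤ d * (h - 1) := by
    have : ((2 * h * i : ℕ) : ℝ) ≤ ((d * (h - 1) : ℕ) : ℝ) := by exact_mod_cast hi
    rw [Nat.cast_mul, Nat.cast_mul, Nat.cast_mul, Nat.cast_sub hh] at this
    simpa using this
  have h0 : (0 : ℝ) < h := by exact_mod_cast hh
  have hk : (2 : ℝ) * i ≤ d - d / h := by
    have : (2 : ℝ) * i = 2 * h * i / h := by field_simp
    rw [this, div_le_iff₀ h0]
    have e : ((d : ℝ) - d / h) * h = d * (h - 1) := by field_simp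
    rw [e]
    exact hr
  by_cases h5 : 5 ≤ h
  · refine Or.inl ⟨h, by exact_mod_cast h5, ?_⟩
    push_cast
    have e : ((h : ℝ) + d) / h = 1 + d / h := by field_simp
    rw [e]
    linarith
  · refine Or.inr ?_
    have h4 : (h : ℝ) ≤ 4 := by
      have : h ≤ 4 := by omega
      exact_mod_cast this
    have hd : (d : ℝ) / 4 ≤ d / h := by
      apply div_le_div_of_nonneg_left (by positivity) h0 h4
    have hd0 : (0 : ℝ) ≤ d := by positivity
    have : ((5 * (2 * i + 4 * 0) : ℕ) : ℝ) ≤ ((4 * (h + d) : ℕ) : ℝ) := by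
      push_cast
      linarith
    exact_mod_cast this

theorem bip (G : SimpleGraph V) (W : Finset V) (hne : W.Nonempty) (hW : Closed G W)
    (h2 : ∀ p ∈ W, (nb G W p).card = 2 → ∀ q ∈ nb G W p, 3 ≤ (nb G W q).card)
    (h3 : ∀ p ∈ W, 3 ≤ (nb G W p).card → ∀ q ∈ nb G W p, (nb G W q).card = 2) : Sol G W := by
  obtain ⟨D3, hD3⟩ : ∃ D3 : Finset V, D3 = W.filter fun p => 3 ≤ (nb G W p).card := ⟨_, rfl⟩
  obtain ⟨D2, hD2⟩ : ∃ D2 : Finset V, D2 = W.filter fun p => (nb G W p).card = 2 := ⟨_, rfl⟩
  have m3 : ∀ {v : V}, v ∈ D3 ↔ v ∈ W ∧ 3 ≤ (nb G W v).card := by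
    intro v; rw [hD3, mem_filter]
  have m2 : ∀ {v : V}, v ∈ D2 ↔ v ∈ W ∧ (nb G W v).card = 2 := by
    intro v; rw [hD2, mem_filter]
  clear hD2 hD3
  have hsplit : ∀ v ∈ W, v ∈ D2 ∨ v ∈ D3 := by
    intro v hv
    have := hW v hv
    rcases Nat.lt_or_ge 2 (nb G W v).card with h | h
    · exact Or.inr (m3.2 ⟨hv, h⟩)
    · exact Or.inl (m2.2 ⟨hv, le_antisymm h this⟩)
  have hdisj : ∀ v, v ∈ D2 → v ∉ D3 := by
    intro v hv h
    have e1 := (m2.1 hv).2
    have e2 := (m3.1 h).2
    omega
  have hcard : W.card = D3.card + D2.card := by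
    rw [← card_union_of_disjoint]
    · congr 1
      ext v
      constructor
      · intro hv
        rcases hsplit v hv with h | h
        · exact mem_union_right _ h
        · exact mem_union_left _ h
      · intro hv
        rcases mem_union.1 hv with h | h
        · exact (m3.1 h).1
        · exact (m2.1 h).1
    · rw [Finset.disjoint_left]
      intro v h h'
      exact hdisj v h' h
  -- the ends
  have hends : ∀ s : V, ∃ x y : V, s ∈ D2 → x ≠ y ∧ nb G W s = {x, y} := by
    intro s
    by_cases hs : s ∈ D2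
    · obtain ⟨x, y, hxy, h⟩ := Finset.card_eq_two.1 (m2.1 hs).2
      exact ⟨x, y, fun _ => ⟨hxy, h⟩⟩
    · exact ⟨s, s, fun h => absurd h hs⟩
  choose a b hab using hends
  have ha : ∀ s ∈ D2, a s ∈ W ∧ G.Adj s (a s) ∧ a s ∈ D3 := by
    intro s hs
    have h1 : a s ∈ nb G W s := by rw [(hab s hs).2]; simp
    have h4 := mem_nb.1 h1
    refine ⟨h4.1, h4.2, m3.2 ⟨h4.1, ?_⟩⟩
    exact h2 s (m2.1 hs).1 (m2.1 hs).2 _ h1
  have hb : ∀ s ∈ D2, b s ∈ W ∧ G.Adj s (b s) ∧ b s ∈ D3 := by
    intro s hs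
    have h1 : b s ∈ nb G W s := by rw [(hab s hs).2]; simp
    have h4 := mem_nb.1 h1
    refine ⟨h4.1, h4.2, m3.2 ⟨h4.1, ?_⟩⟩
    exact h2 s (m2.1 hs).1 (m2.1 hs).2 _ h1
  have hnb : ∀ x ∈ D3, nb G W x = D2.filter fun s => a s = x ∨ b s = x := by
    intro x hx
    ext s
    constructor
    · intro hs
      have hs' := mem_nb.1 hs
      have hs2 : s ∈ D2 := m2.2 ⟨hs'.1, h3 x (m3.1 hx).1 (m3.1 hx).2 s hs⟩
      refine mem_filter.2 ⟨hs2, ?_⟩
      have : x ∈ nb G W s := mem_nb.2 ⟨(m3.1 hx).1, hs'.2.symm⟩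
      rw [(hab s hs2).2, mem_insert, mem_singleton] at this
      rcases this with h | h
      · exact Or.inl h.symm
      · exact Or.inr h.symm
    · intro hs
      obtain ⟨hs2, h | h⟩ := mem_filter.1 hs
      · exact mem_nb.2 ⟨(m2.1 hs2).1, h ▸ (ha s hs2).2.1.symm⟩
      · exact mem_nb.2 ⟨(m2.1 hs2).1, h ▸ (hb s hs2).2.1.symm⟩
  have hD3ne : 1 ≤ D3.card := by
    obtain ⟨p, hp⟩ := hne
    rcases hsplit p hp with h | h
    · exact Finset.card_pos.2 ⟨a p, (ha p h).2.2⟩
    · exact Finset.card_pos.2 ⟨p, h⟩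
  -- the maximal cut
  obtain ⟨f, -, hf⟩ := Finset.exists_max_image (univ : Finset (V → Bool))
    (fun f => (D2.filter fun s => f (a s) ≠ f (b s)).card) ⟨fun _ => true, mem_univ _⟩
  have hsum : ∀ g : V → Bool, (D2.filter fun s => g (a s) = g (b s)).card +
      (D2.filter fun s => g (a s) ≠ g (b s)).card = D2.card := fun g =>
    Finset.card_filter_add_card_filter_not (s := D2) (fun s => g (a s) = g (b s))
  have hinner : ∀ g : V → Bool, (D2.filter fun s => f (a s) = f (b s)).card ≤
      (D2.filter fun s => g (a s) = g (b s)).card := by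
    intro g
    have e1 := hsum g
    have e2 := hsum f
    have e3 := hf g (mem_univ _)
    omega
  have hbal : 2 * D3.card * (D2.filter fun s => f (a s) = f (b s)).card ≤
      D2.card * (D3.card - 1) := by
    obtain ⟨g, hg⟩ := Pool.Agent.L0.maxcut (B := D3) (E := D2)
      (fun s => ⟨a s, (ha s s.2).2.2⟩) (fun s => ⟨b s, (hb s s.2).2.2⟩) (by
        intro s h
        exact (hab s s.2).1 (congrArg Subtype.val h))
    set g' : V → Bool := fun v => if h : v ∈ D3 then g ⟨v, h⟩ else true with hg'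
    have e1 := hinner g'
    have e2 : (D2.filter fun s => g' (a s) = g' (b s)).card =
        (univ.filter fun s : D2 => g ⟨a s, (ha s s.2).2.2⟩ = g ⟨b s, (hb s s.2).2.2⟩).card := by
      symm
      refine Finset.card_bij (fun s _ => (s : V)) ?_ ?_ ?_
      · intro s hs
        refine mem_filter.2 ⟨s.2, ?_⟩
        have := (mem_filter.1 hs).2
        simp only [hg', (ha s s.2).2.2, (hb s s.2).2.2, dif_pos]
        exact this
      · intro s _ t _ h
        exact Subtype.ext h
      · intro s hs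
        obtain ⟨h1, h4⟩ := mem_filter.1 hs
        refine ⟨⟨s, h1⟩, mem_filter.2 ⟨mem_univ _, ?_⟩, rfl⟩
        simp only [hg', (ha s h1).2.2, (hb s h1).2.2, dif_pos] at h4
        exact h4
    rw [Fintype.card_coe, Fintype.card_coe, ← e2] at hg
    exact (Nat.mul_le_mul_left _ e1).trans hg
  -- local optimality
  have hloc : ∀ x ∈ D3, 2 ≤ (D2.filter fun s => (a s = x ∨ b s = x) ∧ f (a s) ≠ f (b s)).card := by
    intro x hx
    set g : V → Bool := Function.update f x (!f x) with hg
    have gx : g x = !f x := by simp [hg]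
    have gy : ∀ y, y ≠ x → g y = f y := fun y hy => by simp [hg, hy]
    have e1 := hinner g
    have s1 := Finset.card_filter_add_card_filter_not (s := D2.filter fun s => f (a s) = f (b s))
      (fun s => a s = x ∨ b s = x)
    have s2 := Finset.card_filter_add_card_filter_not (s := D2.filter fun s => g (a s) = g (b s))
      (fun s => a s = x ∨ b s = x)
    have s3 := Finset.card_filter_add_card_filter_not (s := D2.filter fun s => a s = x ∨ b s = x)
      (fun s => f (a s) = f (b s))
    rw [filter_filter, filter_filter] at s1 s2 s3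
    have t1 : (D2.filter fun s => g (a s) = g (b s) ∧ (a s = x ∨ b s = x)) =
        D2.filter fun s => (a s = x ∨ b s = x) ∧ f (a s) ≠ f (b s) := by
      apply filter_congr
      intro s hs
      have hne := (hab s hs).1
      rw [and_comm]
      refine and_congr_right fun h => ?_
      rcases h with h | h
      · rw [h, gx, gy (b s) (fun h' => hne (h.trans h'.symm))]
        cases f x <;> cases f (b s) <;> simp
      · rw [h, gx, gy (a s) (fun h' => hne (h'.trans h.symm))]
        cases f x <;> cases f (a s) <;> simp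
    have t2 : (D2.filter fun s => g (a s) = g (b s) ∧ ¬ (a s = x ∨ b s = x)) =
        D2.filter fun s => f (a s) = f (b s) ∧ ¬ (a s = x ∨ b s = x) := by
      apply filter_congr
      intro s hs
      refine and_congr_left fun h => ?_
      push Not at h
      rw [gy _ h.1, gy _ h.2]
    have t3 : (D2.filter fun s => f (a s) = f (b s) ∧ (a s = x ∨ b s = x)) =
        D2.filter fun s => (a s = x ∨ b s = x) ∧ f (a s) = f (b s) := by
      apply filter_congr
      intro s hs
      rw [and_comm]
    rw [t1, t2] at s2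
    rw [t3] at s1
    rw [← hnb x hx] at s3
    have h5 : 3 ≤ (nb G W x).card := (m3.1 hx).2
    have h6 : (D2.filter fun s => (a s = x ∨ b s = x) ∧ ¬ f (a s) = f (b s)).card =
      (D2.filter fun s => (a s = x ∨ b s = x) ∧ f (a s) ≠ f (b s)).card := rfl
    omega
  obtain ⟨σ, hσ1, hσ2⟩ := signs (D2.filter fun s => f (a s) ≠ f (b s))
    (fun s => if f (a s) = true then a s else b s) (fun s => if f (a s) = true then b s else a s)
  have hbs : ∀ x ∈ D3, (∃ s ∈ D2.filter fun s => (a s = x ∨ b s = x) ∧ f (a s) ≠ f (b s), σ s = 1) ∧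
      (∃ s ∈ D2.filter fun s => (a s = x ∨ b s = x) ∧ f (a s) ≠ f (b s), σ s = -1) := by
    intro x hx
    refine both _ σ hσ1 ?_ (hloc x hx)
    have h := hσ2 x
    have e0 : (D2.filter fun s => (a s = x ∨ b s = x) ∧ f (a s) ≠ f (b s)) =
        (D2.filter fun s => f (a s) ≠ f (b s)).filter fun s => a s = x ∨ b s = x := by
      rw [filter_filter]
      apply filter_congr
      intro s hs
      rw [and_comm]
    rw [e0, Finset.sum_filter]
    have hterm : ∀ s ∈ D2.filter fun s => f (a s) ≠ f (b s),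
        σ s * ((if (if f (a s) = true then a s else b s) = x then 1 else 0) -
          (if (if f (a s) = true then b s else a s) = x then 1 else 0)) =
        (if f x = true then 1 else -1) * (if a s = x ∨ b s = x then σ s else 0) := by
      intro s hs
      have hcr := (mem_filter.1 hs).2
      have hne := (hab s (mem_filter.1 hs).1).1
      by_cases e1 : a s = x
      · have e2 : b s ≠ x := fun h' => hne (e1.trans h'.symm)
        rw [e1] at hcr ⊢
        cases hfx : f x <;> simp [e2]
      · by_cases e2 : b s = x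
        · rw [e2] at hcr ⊢
          cases hfx : f x <;> cases hfa : f (a s) <;> simp_all
        · cases hfa : f (a s) <;> simp [e1, e2]
    rw [Finset.sum_congr rfl hterm, ← Finset.mul_sum, abs_mul] at h
    have h7 : |(if f x = true then 1 else -1 : ℤ)| = 1 := by
      cases f x <;> simp
    rw [h7, one_mul] at h
    exact h
  set c : V → Bool := fun v => if v ∈ D3 then f v else
    if f (a v) = f (b v) then !f (a v) else decide (σ v = 1) with hc
  have hc3 : ∀ v ∈ D3, c v = f v := fun v hv => by simp only [hc]; rw [if_pos hv]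
  have hc2 : ∀ s ∈ D2, f (a s) = f (b s) → c s = !f (a s) := fun s hs h => by
    simp only [hc]; rw [if_neg (hdisj s hs), if_pos h]
  have hc2' : ∀ s ∈ D2, f (a s) ≠ f (b s) → c s = decide (σ s = 1) := fun s hs h => by
    simp only [hc]; rw [if_neg (hdisj s hs), if_neg h]
  refine ⟨c, D2.filter fun s => f (a s) = f (b s), ∅, ?_, ?_⟩
  · intro v hv
    rcases hsplit v hv with hv2 | hv3
    · by_cases he : f (a v) = f (b v)
      · refine ok_I (mem_filter.2 ⟨hv2, he⟩) (ha v hv2).1 (ha v hv2).2.1 ?_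
        rw [hc3 _ (ha v hv2).2.2, hc2 v hv2 he]
        cases f (a v) <;> simp
      · refine ok_two (ha v hv2).1 (hb v hv2).1 (ha v hv2).2.1 (hb v hv2).2.1 ?_
        rw [hc3 _ (ha v hv2).2.2, hc3 _ (hb v hv2).2.2]
        exact he
    · obtain ⟨⟨s, hs, hs'⟩, t, ht, ht'⟩ := hbs v hv3
      have hmem : ∀ s ∈ D2.filter (fun s => (a s = v ∨ b s = v) ∧ f (a s) ≠ f (b s)),
          s ∈ W ∧ G.Adj v s := by
        intro s hs
        have : s ∈ nb G W v := by
          rw [hnb v hv3]
          exact mem_filter.2 ⟨(mem_filter.1 hs).1, (mem_filter.1 hs).2.1⟩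
        exact mem_nb.1 this
      refine ok_two (hmem s hs).1 (hmem t ht).1 (hmem s hs).2 (hmem t ht).2 ?_
      rw [hc2' s (mem_filter.1 hs).1 (mem_filter.1 hs).2.2,
        hc2' t (mem_filter.1 ht).1 (mem_filter.1 ht).2.2, hs', ht']
      decide
  · rw [hcard, Finset.card_empty]
    exact bd_num _ _ _ hD3ne hbal

end Pool.Agent.H9.TD
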