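import Pool.Agent.H84.MC.M1

/-!
# From a colouring to two disjoint total dominating sets: recolourable vertices
-/

set_option autoImplicit false

namespace Pool.Agent.H9.TD

open Pool.Agent.H84.MC Finset

variable {V : Type}

theorem hasTwo_mono {G H : SimpleGraph V} (h : G ≤ H) (hG : HasTwoDisjointTD G) :
    HasTwoDisjointTD H := by
  obtain ⟨S, T, hST, hS, hT⟩ := hG
  refine ⟨S, T, hST, fun v => ?_, fun v => ?_⟩
  · obtain ⟨w, hw, hvw⟩ := hS v
    exact ⟨w, hw, h hvw⟩
  · obtain ⟨w, hw, hvw⟩ := hT v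
    exact ⟨w, hw, h hvw⟩

theorem aug_add (G : SimpleGraph V) {s s' : V} (hne : s ≠ s') {t : ℕ}
    (ht : t ∈ augmentSizes (G ⊔ SimpleGraph.edge s s')) :
    ∃ t' ∈ augmentSizes G, t' ≤ t + 1 := by
  classical
  obtain ⟨F, hF, hcard, hT⟩ := ht
  have hFG : (F : Set (Sym2 V)) ⊆ Gᶜ.edgeSet := by
    intro e he
    have := hF he
    induction e using Sym2.ind with
    | _ x y =>
      rw [SimpleGraph.mem_edgeSet, SimpleGraph.compl_adj] at this ⊢
      exact ⟨this.1, fun h => this.2 (by rw [SimpleGraph.sup_adj]; exact Or.inl h)⟩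
  by_cases hadj : G.Adj s s'
  · refine ⟨t, ⟨F, hFG, hcard, hasTwo_mono ?_ hT⟩, by omega⟩
    refine sup_le_sup_right (sup_le le_rfl ?_) _
    intro x y h
    rw [SimpleGraph.edge_adj] at h
    rcases h.1 with ⟨h1, h2⟩ | ⟨h1, h2⟩
    · rw [h1, h2]; exact hadj
    · rw [h1, h2]; exact hadj.symm
  · refine ⟨_, ⟨insert s(s, s') F, ?_, rfl, hasTwo_mono ?_ hT⟩, ?_⟩
    · intro e he
      rcases Finset.mem_insert.1 (Finset.mem_coe.1 he) with h | h
      · rw [h, SimpleGraph.mem_edgeSet, SimpleGraph.compl_adj]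
        exact ⟨hne, hadj⟩
      · exact hFG (Finset.mem_coe.2 h)
    · intro x y h
      rw [SimpleGraph.sup_adj, SimpleGraph.sup_adj, SimpleGraph.edge_adj,
        SimpleGraph.fromEdgeSet_adj] at h
      rw [SimpleGraph.sup_adj, SimpleGraph.fromEdgeSet_adj]
      rcases h with (h | ⟨h, h'⟩) | h
      · exact Or.inl h
      · refine Or.inr ⟨?_, h'⟩
        rw [Finset.mem_coe, Finset.mem_insert]
        left
        rw [Sym2.eq_iff]
        rcases h with ⟨h1, h2⟩ | ⟨h1, h2⟩
        · exact Or.inl ⟨h1, h2⟩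
        · exact Or.inr ⟨h1, h2⟩
      · exact Or.inr ⟨Finset.mem_coe.2 (Finset.mem_insert_of_mem (Finset.mem_coe.1 h.1)), h.2⟩
    · rw [← hcard]
      exact Finset.card_insert_le _ _

theorem conv2_zero (G : SimpleGraph V) (c : V → Bool)
    (h1 : ∀ v, (∃ u, G.Adj v u ∧ c u = true) ∧ (∃ u, G.Adj v u ∧ c u = false)) :
    0 ∈ augmentSizes G := by
  refine ⟨∅, by simp, rfl, {v | c v = true}, {v | c v = false}, ?_, fun v => ?_, fun v => ?_⟩
  · rw [Set.disjoint_left]
    intro v hv hv'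
    change c v = true at hv
    change c v = false at hv'
    rw [hv] at hv'
    exact absurd hv' (by decide)
  · obtain ⟨u, hu, hu'⟩ := (h1 v).1
    exact ⟨u, hu', by rw [SimpleGraph.sup_adj]; exact Or.inl hu⟩
  · obtain ⟨u, hu, hu'⟩ := (h1 v).2
    exact ⟨u, hu', by rw [SimpleGraph.sup_adj]; exact Or.inl hu⟩

theorem conv2_ex (n : ℕ) : ∀ (G : SimpleGraph V) (c : V → Bool) (I : Finset V), I.card = n →
    (∀ v, v ∉ I → (∃ u, u ∉ I ∧ G.Adj v u ∧ c u = true) ∧ (∃ u, u ∉ I ∧ G.Adj v u ∧ c u = false)) →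
    (∀ v ∈ I, ∃ u, u ∉ I ∧ G.Adj v u ∧ c u ≠ c v) → (∃ v, v ∉ I) →
    ∃ t ∈ augmentSizes G, 2 * t ≤ I.card + 1 := by
  classical
  induction n using Nat.strong_induction_on with
  | _ n ih =>
    intro G c I hn h1 h2 hne
    rcases Nat.lt_or_ge 1 I.card with hI | hI
    · -- two vertices
      obtain ⟨s, hs, s', hs', hss⟩ := Finset.one_lt_card.1 hI
      set c' : V → Bool := fun v => if v = s then c s' else if v = s' then c s else c v with hc'
      have cs : c' s = c s' := by simp [hc']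
      have cs' : c' s' = c s := by simp [hc', hss.symm]
      have cv : ∀ v, v ≠ s → v ≠ s' → c' v = c v := fun v h h' => by simp [hc', h, h']
      have cI : ∀ v, v ∉ I → c' v = c v := fun v hv =>
        cv v (fun h => hv (h ▸ hs)) (fun h => hv (h ▸ hs'))
      set I' := (I.erase s).erase s' with hI'
      have hsub : ∀ v, v ∉ I → v ∉ I' := fun v hv h =>
        hv (Finset.mem_of_mem_erase (Finset.mem_of_mem_erase h))
      have hsI : s ∉ I' := fun h => (Finset.mem_erase.1 (Finset.mem_of_mem_erase h)).1 rfl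
      have hsI' : s' ∉ I' := fun h => (Finset.mem_erase.1 h).1 rfl
      have hcard : I'.card + 2 = I.card := by
        rw [hI', Finset.card_erase_of_mem (Finset.mem_erase.2 ⟨hss.symm, hs'⟩),
          Finset.card_erase_of_mem hs]
        omega
      have hadj : ∀ {x y}, G.Adj x y → (G ⊔ SimpleGraph.edge s s').Adj x y := fun h => by
        rw [SimpleGraph.sup_adj]; exact Or.inl h
      have he : (G ⊔ SimpleGraph.edge s s').Adj s s' := by
        rw [SimpleGraph.sup_adj, SimpleGraph.edge_adj]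
        exact Or.inr ⟨Or.inl ⟨rfl, rfl⟩, hss⟩
      obtain ⟨t, ht, ht2⟩ := ih I'.card (by omega) (G ⊔ SimpleGraph.edge s s') c' I' rfl (by
        intro v hv
        by_cases hvI : v ∈ I
        · by_cases hvs : v = s
          · subst hvs
            obtain ⟨u, hu, hu2, hu3⟩ := h2 v hvI
            have hcu : c' u = c u := cI u hu
            cases hc : c v
            · refine ⟨⟨u, hsub u hu, hadj hu2, ?_⟩, ⟨s', hsI', he, by rw [cs', hc]⟩⟩
              rw [hcu]
              rw [hc] at hu3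
              simpa using hu3
            · refine ⟨⟨s', hsI', he, by rw [cs', hc]⟩, ⟨u, hsub u hu, hadj hu2, ?_⟩⟩
              rw [hcu]
              rw [hc] at hu3
              simpa using hu3
          · have hvs' : v = s' := by
              by_contra h
              exact hv (Finset.mem_erase.2 ⟨h, Finset.mem_erase.2 ⟨hvs, hvI⟩⟩)
            subst hvs'
            obtain ⟨u, hu, hu2, hu3⟩ := h2 v hvI
            have hcu : c' u = c u := cI u hu
            cases hc : c v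
            · refine ⟨⟨u, hsub u hu, hadj hu2, ?_⟩, ⟨s, hsI, he.symm, by rw [cs, hc]⟩⟩
              rw [hcu]
              rw [hc] at hu3
              simpa using hu3
            · refine ⟨⟨s, hsI, he.symm, by rw [cs, hc]⟩, ⟨u, hsub u hu, hadj hu2, ?_⟩⟩
              rw [hcu]
              rw [hc] at hu3
              simpa using hu3
        · obtain ⟨⟨u, hu, hu2, hu3⟩, ⟨w, hw, hw2, hw3⟩⟩ := h1 v hvI
          exact ⟨⟨u, hsub u hu, hadj hu2, by rw [cI u hu, hu3]⟩,
            ⟨w, hsub w hw, hadj hw2, by rw [cI w hw, hw3]⟩⟩) (by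
        intro v hv
        have hv1 := Finset.mem_erase.1 hv
        have hv2 := Finset.mem_erase.1 hv1.2
        obtain ⟨u, hu, hu2, hu3⟩ := h2 v hv2.2
        exact ⟨u, hsub u hu, hadj hu2, by rw [cI u hu, cv v hv2.1 hv1.1]; exact hu3⟩) (by
        obtain ⟨v, hv⟩ := hne
        exact ⟨v, hsub v hv⟩)
      obtain ⟨t', ht', ht''⟩ := aug_add G hss ht
      exact ⟨t', ht', by omega⟩
    · rcases Nat.eq_zero_or_pos I.card with h0 | h0
      · have hI0 : I = ∅ := Finset.card_eq_zero.1 h0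
        refine ⟨0, conv2_zero G c fun v => ?_, by omega⟩
        obtain ⟨⟨u, hu, hu2, hu3⟩, ⟨w, hw, hw2, hw3⟩⟩ := h1 v (by simp [hI0])
        exact ⟨⟨u, hu2, hu3⟩, ⟨w, hw2, hw3⟩⟩
      · obtain ⟨s, hs⟩ := Finset.card_eq_one.1 (le_antisymm hI h0)
        have hsI : s ∈ I := by simp [hs]
        obtain ⟨v₀, hv₀⟩ := hne
        obtain ⟨x, hxI, hxc⟩ : ∃ x, x ∉ I ∧ c x = c s := by
          obtain ⟨⟨u, hu, hu2, hu3⟩, ⟨w, hw, hw2, hw3⟩⟩ := h1 v₀ hv₀
          cases hc : c s
          · exact ⟨w, hw, hw3⟩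
          · exact ⟨u, hu, hu3⟩
        have hsx : s ≠ x := fun h => hxI (h ▸ hsI)
        have hadj : ∀ {a b}, G.Adj a b → (G ⊔ SimpleGraph.edge s x).Adj a b := fun h => by
          rw [SimpleGraph.sup_adj]; exact Or.inl h
        have he : (G ⊔ SimpleGraph.edge s x).Adj s x := by
          rw [SimpleGraph.sup_adj, SimpleGraph.edge_adj]
          exact Or.inr ⟨Or.inl ⟨rfl, rfl⟩, hsx⟩
        obtain ⟨t', ht', ht''⟩ := aug_add G hsx (conv2_zero (G ⊔ SimpleGraph.edge s x) c (by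
          intro v
          by_cases hvI : v ∈ I
          · have hvs : v = s := by simpa [hs] using hvI
            subst hvs
            obtain ⟨u, hu, hu2, hu3⟩ := h2 v hvI
            cases hc : c v
            · rw [hc] at hu3 hxc
              exact ⟨⟨u, hadj hu2, by simpa using hu3⟩, ⟨x, he, hxc⟩⟩
            · rw [hc] at hu3 hxc
              exact ⟨⟨x, he, hxc⟩, ⟨u, hadj hu2, by simpa using hu3⟩⟩
          · obtain ⟨⟨u, hu, hu2, hu3⟩, ⟨w, hw, hw2, hw3⟩⟩ := h1 v hvI
            exact ⟨⟨u, hadj hu2, hu3⟩, ⟨w, hadj hw2, hw3⟩⟩))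
        exact ⟨t', ht', by omega⟩

theorem conv2 {V : Type} [Fintype V] (G : SimpleGraph V) (c : V → Bool) (I : Finset V)
    (h1 : ∀ v, v ∉ I → (∃ u, u ∉ I ∧ G.Adj v u ∧ c u = true) ∧
      (∃ u, u ∉ I ∧ G.Adj v u ∧ c u = false))
    (h2 : ∀ v ∈ I, ∃ u, u ∉ I ∧ G.Adj v u ∧ c u ≠ c v) (hne : ∃ v, v ∉ I) :
    2 * td G ≤ I.card + 1 := by
  obtain ⟨t, ht, ht2⟩ := conv2_ex I.card G c I rfl h1 h2 hne
  have : td G ≤ t := Nat.sInf_le ht
  omega

end Pool.Agent.H9.TD
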