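import Pool.Agent.H84.MC.M1

/-!
# The disjoint union of a triangle and a cycle of length five
-/

set_option autoImplicit false

namespace Pool.Agent.H9.TD

open Pool.Agent.H84.MC

/-- The disjoint union of the triangle `0, 1, 2` and the cycle `3, 4, 5, 6, 7`. -/
def G8 : SimpleGraph (Fin 8) where
  Adj u v := (u.val < 3 ∧ v.val < 3 ∧ u ≠ v) ∨
    (3 ≤ u.val ∧ 3 ≤ v.val ∧ ((u.val - 3 + 1) % 5 = v.val - 3 ∨ (v.val - 3 + 1) % 5 = u.val - 3))
  symm := ⟨by decide⟩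
  loopless := ⟨by decide⟩

instance : DecidableRel G8.Adj := fun u v =>
  inferInstanceAs (Decidable ((u.val < 3 ∧ v.val < 3 ∧ u ≠ v) ∨
    (3 ≤ u.val ∧ 3 ≤ v.val ∧ ((u.val - 3 + 1) % 5 = v.val - 3 ∨ (v.val - 3 + 1) % 5 = u.val - 3))))

/-- adjacency -/
def adj8 (u v : Fin 8) : Bool :=
  (u.val < 3 && v.val < 3 && u != v) ||
  (3 ≤ u.val && 3 ≤ v.val && ((u.val + 3) % 5 == v.val - 3 || (v.val + 3) % 5 == u.val - 3))

/-- adjacency with one more edge -/
def adj9 (p q u v : Fin 8) : Bool := adj8 u v || (u == p && v == q) || (u == q && v == p)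

/-- the vertices -/
def fin8 : List (Fin 8) := [0, 1, 2, 3, 4, 5, 6, 7]

/-- the condition on a colouring -/
def chk (c : Fin 8 → Bool) (p q : Fin 8) : Bool :=
  fin8.all fun v => (fin8.any fun w => adj9 p q v w && c w) &&
    (fin8.any fun w => adj9 p q v w && !c w)

theorem chk_false : ∀ c : Fin 8 → Bool, ∀ p q : Fin 8, chk c p q = false := by decide +kernel

theorem adj8_of : ∀ u v : Fin 8, G8.Adj u v → adj8 u v = true := by decide +kernel

theorem mem_fin8 : ∀ v : Fin 8, v ∈ fin8 := by decide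

theorem lower8 {t : ℕ} (ht : t ∈ augmentSizes G8) : 2 ≤ t := by
  obtain ⟨F, -, hcard, S, T, hST, hS, hT⟩ := ht
  by_contra hlt
  have h1 : F.card ≤ 1 := by omega
  obtain ⟨p, q, hpq⟩ : ∃ p q : Fin 8, ∀ u v,
      (G8 ⊔ SimpleGraph.fromEdgeSet (F : Set (Sym2 (Fin 8)))).Adj u v → adj9 p q u v = true := by
    obtain ⟨e, he⟩ := Finset.card_le_one_iff_subset_singleton.1 h1
    induction e using Sym2.ind with
    | _ p q =>
      refine ⟨p, q, fun u v h => ?_⟩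
      rw [SimpleGraph.sup_adj] at h
      rcases h with h | h
      · simp [adj9, adj8_of u v h]
      · rw [SimpleGraph.fromEdgeSet_adj] at h
        have h2 := Finset.mem_singleton.1 (he (Finset.mem_coe.1 h.1))
        rw [Sym2.eq_iff] at h2
        rcases h2 with ⟨h2, h3⟩ | ⟨h2, h3⟩ <;> simp [adj9, h2, h3]
  classical
  have h2 : chk (fun v => decide (v ∈ S)) p q = true := by
    unfold chk
    rw [List.all_eq_true]
    intro v _
    rw [Bool.and_eq_true, List.any_eq_true, List.any_eq_true]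
    obtain ⟨w, hw, hvw⟩ := hS v
    obtain ⟨w', hw', hvw'⟩ := hT v
    have h3 : w' ∉ S := fun h => Set.disjoint_left.1 hST h hw'
    exact ⟨⟨w, mem_fin8 w, by simp [hpq _ _ hvw, hw]⟩, ⟨w', mem_fin8 w', by simp [hpq _ _ hvw', h3]⟩⟩
  rw [chk_false] at h2
  exact Bool.false_ne_true h2

theorem two_mem : 2 ∈ augmentSizes G8 := by
  have h1 : ∀ v : Fin 8, ∃ w, w ∈ ({0, 3, 4, 7} : Finset (Fin 8)) ∧ (G8.Adj v w ∨
      (s(v, w) ∈ ({s(0, 4), s(3, 1)} : Finset (Sym2 (Fin 8))) ∧ v ≠ w)) := by decide +kernel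
  have h2 : ∀ v : Fin 8, ∃ w, w ∈ ({1, 2, 5, 6} : Finset (Fin 8)) ∧ (G8.Adj v w ∨
      (s(v, w) ∈ ({s(0, 4), s(3, 1)} : Finset (Sym2 (Fin 8))) ∧ v ≠ w)) := by decide +kernel
  refine ⟨{s(0, 4), s(3, 1)}, ?_, by decide, ((({0, 3, 4, 7} : Finset (Fin 8))) : Set (Fin 8)),
    ((({1, 2, 5, 6} : Finset (Fin 8))) : Set (Fin 8)), ?_, ?_, ?_⟩
  · intro e he
    have he' : e = s(0, 4) ∨ e = s(3, 1) := by simpa using he
    rcases he' with rfl | rfl
    · rw [SimpleGraph.mem_edgeSet, SimpleGraph.compl_adj]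
      decide
    · rw [SimpleGraph.mem_edgeSet, SimpleGraph.compl_adj]
      decide
  · rw [Finset.disjoint_coe]
    decide
  · intro v
    obtain ⟨w, hw, h⟩ := h1 v
    refine ⟨w, Finset.mem_coe.2 hw, ?_⟩
    rw [SimpleGraph.sup_adj, SimpleGraph.fromEdgeSet_adj]
    rcases h with h | h
    · exact Or.inl h
    · exact Or.inr ⟨Finset.mem_coe.2 h.1, h.2⟩
  · intro v
    obtain ⟨w, hw, h⟩ := h2 v
    refine ⟨w, Finset.mem_coe.2 hw, ?_⟩
    rw [SimpleGraph.sup_adj, SimpleGraph.fromEdgeSet_adj]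
    rcases h with h | h
    · exact Or.inl h
    · exact Or.inr ⟨Finset.mem_coe.2 h.1, h.2⟩

theorem k3c5 : (∀ v, 2 ≤ (G8.neighborSet v).ncard) ∧ td G8 = 2 := by
  refine ⟨fun v => ?_, le_antisymm (Nat.sInf_le two_mem) (lower8 (Nat.sInf_mem ⟨2, two_mem⟩))⟩
  have h : ∀ v : Fin 8, ∃ x y : Fin 8, x ≠ y ∧ G8.Adj v x ∧ G8.Adj v y := by decide +kernel
  obtain ⟨x, y, hxy, hx, hy⟩ := h v
  have : 1 < (G8.neighborSet v).ncard := by
    rw [Set.one_lt_ncard_iff]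
    exact ⟨x, y, hx, hy, hxy⟩
  exact this

end Pool.Agent.H9.TD
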